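import Pool.Agent.helper74.VDI.SpecF
import Pool.Agent.helper34.VD.NGD

set_option autoImplicit false

open scoped ContDiff Topology InnerProductSpace ENNReal ComplexConjugate
open MeasureTheory Filter Set

namespace Pool.Agent.VDI

open Pool.Agent.RPQ (PN PJ UN upd)
open Pool.Agent.VQ (CH rk)
open Pool.Agent.VN (aN)
open Pool.Agent.VD
open Pool.Agent.VDE (UWLD FDX)

theorem NGM_proof (hRSY : VD.RSY_stmt) (hRCN : VD.RCN_stmt) (hNAT : VD.NAT_stmt) : NGM_stmt := by
  intro d Γ _ _ K G0 hK hG0 hI0 hneg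
  obtain ⟨M0, hM0, hM0b⟩ := NGD_bdd hG0 hK.compact
  obtain ⟨c, hc, hcl⟩ := NGD_lb hG0 hK.compact
  obtain ⟨c0, hc0, hc0l⟩ := NGD_neg hG0 hneg hK.compact
  have hci : 0 < c⁻¹ := inv_pos.2 hc
  obtain ⟨C, hC, hCm⟩ := hRCN d (max (M0 + 1) (2 * c⁻¹)) (by
    have h1 := le_max_left (M0 + 1) (2 * c⁻¹)
    linarith)
  have hCpos : 0 < C := by linarith
  refine ⟨min 1 (min (c / 2) (c0 / (2 * C))), lt_min one_pos (lt_min (by positivity) (by positivity)), ?_⟩
  intro G' hG' hI' hd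
  set s := min 1 (min (c / 2) (c0 / (2 * C))) with hs
  have hs0 : 0 < s := lt_min one_pos (lt_min (by positivity) (by positivity))
  have hs1 : s ≤ 1 := min_le_left _ _
  have hs2 : s ≤ c / 2 := (min_le_right _ _).trans (min_le_left _ _)
  have hs3 : C * s ≤ c0 / 2 := by
    have h1 : s ≤ c0 / (2 * C) := (min_le_right _ _).trans (min_le_right _ _)
    have h2 : C * s ≤ C * (c0 / (2 * C)) := mul_le_mul_of_nonneg_left h1 hCpos.le
    have h3 : C * (c0 / (2 * C)) = c0 / 2 := by field_simp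
    rw [h3] at h2
    exact h2
  have keyK : ∀ x ∈ K, ∀ u v : V d, LinearIndependent ℝ ![u, v] →
      ⟪G' x (Riem G' x u v v), u⟫_ℝ < 0 := by
    intro x hx
    apply NGD_li hRSY hG' x
    intro u v hu hv huv
    have hdx : ∀ n ≤ 2, ‖iteratedFDeriv ℝ n (fun y => G0 y - G' y) x‖ ≤ s := fun n hn => hd n hn x hx
    have hG'b : ∀ n ≤ 2, ‖iteratedFDeriv ℝ n G' x‖ ≤ M0 + 1 := by
      intro n hn
      have h1 : iteratedFDeriv ℝ n (fun y => G0 y - G' y) x = iteratedFDeriv ℝ n G0 x - iteratedFDeriv ℝ n G' x := by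
        exact fun_iteratedFDeriv_sub_apply (hG0.smooth.of_le (by exact_mod_cast le_top)).contDiffAt
          (hG'.smooth.of_le (by exact_mod_cast le_top)).contDiffAt
      have h2 : iteratedFDeriv ℝ n G' x = iteratedFDeriv ℝ n G0 x - iteratedFDeriv ℝ n (fun y => G0 y - G' y) x := by
        rw [h1]
        abel
      rw [h2]
      refine (norm_sub_le _ _).trans ?_
      have h3 := hM0b x hx n hn
      have h4 := hdx n hn
      linarith
    have h0 : ‖G0 x - G' x‖ ≤ s := by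
      have h1 := hdx 0 (by norm_num)
      rw [norm_iteratedFDeriv_zero] at h1
      exact h1
    have hinv0 : ‖(G0 x).inverse‖ ≤ max (M0 + 1) (2 * c⁻¹) := by
      have h1 := NGD_invb hG0 x c hc (hcl x hx)
      have h2 : c⁻¹ ≤ 2 * c⁻¹ := by linarith
      exact h1.trans (h2.trans (le_max_right _ _))
    have hinv1 : ‖(G' x).inverse‖ ≤ max (M0 + 1) (2 * c⁻¹) := by
      have h1 := NGD_invb hG' x (c / 2) (by positivity) (by
        intro w
        have h2 := hcl x hx w
        have h3 : ⟪G' x w, w⟫_ℝ = ⟪G0 x w, w⟫_ℝ - ⟪(G0 x - G' x) w, w⟫_ℝ := by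
          rw [ContinuousLinearMap.sub_apply, inner_sub_left]
          ring
        have h4 : ⟪(G0 x - G' x) w, w⟫_ℝ ≤ s * ‖w‖ ^ 2 := by
          refine (real_inner_le_norm _ _).trans ?_
          have h5 := (G0 x - G' x).le_opNorm w
          have h6 : ‖(G0 x - G' x) w‖ ≤ s * ‖w‖ := h5.trans (mul_le_mul_of_nonneg_right h0 (norm_nonneg _))
          calc ‖(G0 x - G' x) w‖ * ‖w‖ ≤ (s * ‖w‖) * ‖w‖ := mul_le_mul_of_nonneg_right h6 (norm_nonneg _)
            _ = s * ‖w‖ ^ 2 := by ring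
        have h7 : s * ‖w‖ ^ 2 ≤ c / 2 * ‖w‖ ^ 2 := mul_le_mul_of_nonneg_right hs2 (by positivity)
        rw [h3]
        linarith)
      have h2 : (c / 2)⁻¹ = 2 * c⁻¹ := by field_simp
      rw [h2] at h1
      exact h1.trans (le_max_right _ _)
    obtain ⟨h1, -⟩ := hCm G0 G' x s hG0 hG' hs0.le (by
      intro n hn
      refine ⟨?_, (hG'b n hn).trans (le_max_left _ _)⟩
      have h3 := hM0b x hx n hn
      exact (by linarith : ‖iteratedFDeriv ℝ n G0 x‖ ≤ M0 + 1).trans (le_max_left _ _)) hinv0 hinv1 hdx u v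
    rw [hu, hv] at h1
    have h2 := hc0l x hx u v hu hv huv
    have h3 := (abs_le.1 h1).1
    have h4 : C * s * 1 ^ 2 * 1 ^ 2 = C * s := by ring
    rw [h4] at h3
    linarith
  have hDeck : Deck Γ G' := ⟨hK.smooth, hI', hK.free, hK.proper, ⟨K, hK.compact, hK.cover⟩⟩
  intro x u v huv
  have hgram := NGD_gram hG' x u v huv
  refine div_neg_of_neg_of_pos ?_ hgram
  obtain ⟨γ, hγ⟩ := hK.cover x
  have hT := hNAT d Γ G' hG' hDeck γ x u v v
  have hiso := hDeck.isom γ x
  rw [← hiso, ← hT]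
  apply keyK (γ • x) hγ
  rw [LinearIndependent.pair_iff] at huv ⊢
  intro a b hab
  apply huv a b
  by_contra hne
  have h1 := hG'.pos x _ hne
  rw [← hiso, map_add, map_smul, map_smul, hab, inner_zero_right] at h1
  exact lt_irrefl _ h1

end Pool.Agent.VDI
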